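import Pool.Agent.Lib.MP_305fdd_al.Su.Ind.Indep

/-!
# MP_305fdd_al, surface groups, block (ind): comparison through completions

`FrNE.Pro φ 𝔞 𝔪 ι` says that `ι : M → M'` is semilinear along `φ` and bijective on the completions.
-/

set_option autoImplicit false
set_option linter.unusedSectionVars false

namespace Pool.Agent.SuInd

open Pool.Agent.FrN Pool.Agent.FrNA Pool.Agent.FrNE Pool.Agent.F2Ch

variable {p : ℕ} [Fact p.Prime]

/-- the polynomials of two modules which are identified by an additive bijection -/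
theorem P_bij {A B : Type} [CommRing A] [CommRing B] [Algebra (ZMod p) A] [Algebra (ZMod p) B]
    (X : CMod p A) (Y : CMod p B) (ι : X.M →+ Y.M) (hC : ∀ x, ι (X.C x) = Y.C (ι x))
    (hι : Function.Bijective ι) : X.P = Y.P := by
  let q : X.M →ₗ[ZMod p] Y.M := AddMonoidHom.toZModLinearMap p ι
  let e : X.M ≃ₗ[ZMod p] Y.M := LinearEquiv.ofBijective q hι
  have he : Y.C ∘ₗ e.toLinearMap = e.toLinearMap ∘ₗ X.C := LinearMap.ext fun x => (hC x).symm
  have he' : X.C ∘ₗ e.symm.toLinearMap = e.symm.toLinearMap ∘ₗ Y.C := by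
    apply LinearMap.ext
    intro y
    obtain ⟨x, rfl⟩ := e.surjective y
    have h1 : Y.C (e x) = e (X.C x) := LinearMap.congr_fun he x
    rw [LinearMap.comp_apply, LinearMap.comp_apply, LinearEquiv.coe_coe, h1,
      LinearEquiv.symm_apply_apply, LinearEquiv.symm_apply_apply]
  change PV X.C ⊤ = PV Y.C ⊤
  rw [PU_eq_iff]
  by_cases h : ∃ W, Abs X.C W
  · obtain ⟨W, hW⟩ := h
    have hW' := hW.map he fun v => ⟨0, e.surjective v⟩
    rw [PP_top hW, PP_top hW', absP_equiv e hW he]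
  · rw [PP_none, PP_none]
    · rintro ⟨W, hW⟩
      rw [nuc_top] at hW
      exact h ⟨_, hW.map he' fun v => ⟨0, e.symm.surjective v⟩⟩
    · rintro ⟨W, hW⟩
      exact h ⟨W, nuc_top.1 hW⟩

/-- the comparison of `LP` with a completion (no finiteness of the rings but `Noetherian`) -/
theorem LP_pro {A B : Type} [CommRing A] [CommRing B] [Algebra (ZMod p) A] [Algebra (ZMod p) B]
    [IsNoetherianRing A] [IsNoetherianRing B] (φ : A →+* B) (𝔞 : Ideal A) (𝔪 : Ideal B)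
    (hφ : 𝔞.map φ ≤ 𝔪) (ys : List A) : ∀ (X : CMod p A) (X' : CMod p B),
    Module.Finite A X.M → Module.Finite B X'.M → ∀ ι : X.M →+ X'.M, Pro φ 𝔞 𝔪 ι →
    (∀ x, ι (X.C x) = X'.C (ι x)) → ∀ k : ℕ,
    𝔞 ^ k ≤ Module.annihilator A X.M ⊔ Ideal.span {y | y ∈ ys} →
    𝔪 ^ k ≤ Module.annihilator B X'.M ⊔ Ideal.span {z | z ∈ ys.map φ} →
    CMod.LP (ys.map φ) X' = CMod.LP ys X := by
  induction ys with
  | nil =>
    intro X X' _ _ ι hι hC k ha hm
    have e : Ideal.span {y | y ∈ ([] : List A)} = ⊥ := by simp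
    have e' : Ideal.span {y | y ∈ ([] : List A).map φ} = ⊥ := by simp
    rw [e, sup_bot_eq] at ha
    rw [e', sup_bot_eq] at hm
    refine (P_bij X X' ι hC ⟨?_, ?_⟩).symm
    · rw [injective_iff_map_eq_zero]
      intro x hx
      obtain ⟨N, hN⟩ := hι.top k
      have h1 := hN x (by rw [hx]; exact Submodule.zero_mem _)
      have h2 : (𝔞 ^ k • ⊤ : Submodule A X.M) ≤ ⊥ := by
        refine Submodule.smul_le.2 fun r hr n _ => ?_
        exact (Submodule.mem_bot A).2 (Module.mem_annihilator.1 (ha hr) n)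
      exact (Submodule.mem_bot A).1 (h2 h1)
    · intro x'
      obtain ⟨x, hx⟩ := hι.dense k x'
      have h2 : (𝔪 ^ k • ⊤ : Submodule B X'.M) ≤ ⊥ := by
        refine Submodule.smul_le.2 fun r hr n _ => ?_
        exact (Submodule.mem_bot B).2 (Module.mem_annihilator.1 (hm hr) n)
      exact ⟨x, (sub_eq_zero.1 ((Submodule.mem_bot B).1 (h2 hx))).symm⟩
  | cons y ys ih =>
    intro X X' hX hX' ι hι hC k ha hm
    obtain ⟨⟨κ₁, hκ₁, hc₁⟩, κ₂, hκ₂, hc₂⟩ := p_prok p A B φ 𝔞 𝔪 hφ X X' ι hι hC y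
    rw [pro_span, ← sup_assoc] at ha
    rw [List.map_cons, pro_span, ← sup_assoc] at hm
    have e1 := ih (X.kr y) (X'.kr (φ y)) (pro_fin_kr X y) (pro_fin_kr X' (φ y)) κ₁ hκ₁ hc₁ k
      (ha.trans (sup_le_sup_right (pro_ann_kr X y) _))
      (hm.trans (sup_le_sup_right (pro_ann_kr X' (φ y)) _))
    have e2 := ih (X.qt y) (X'.qt (φ y)) (pro_fin_qt X y) (pro_fin_qt X' (φ y)) κ₂ hκ₂ hc₂ k
      (ha.trans (sup_le_sup_right (pro_ann_qt X y) _))
      (hm.trans (sup_le_sup_right (pro_ann_qt X' (φ y)) _))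
    rw [List.map_cons, LP_cons, LP_cons, e1, e2]

/-- Two Cartier modules over Noetherian rings with isomorphic completions (over `R`) have the same
alternating products. -/
theorem LP_cmp {A B R : Type} [CommRing A] [CommRing B] [CommRing R] [Algebra (ZMod p) A]
    [Algebra (ZMod p) B] [Algebra (ZMod p) R] [IsNoetherianRing A] [IsNoetherianRing B]
    [IsNoetherianRing R] (φ : A →+* R) (ψ : B →+* R) (𝔞 : Ideal A) (𝔟 : Ideal B) (𝔯 : Ideal R)
    (ha : 𝔞.map φ = 𝔯) (hb : 𝔟.map ψ = 𝔯) (hR : Finite (R ⧸ 𝔯))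
    (X : CMod p A) (Y : CMod p B) (Z : CMod p R) (hX : Module.Finite A X.M)
    (hY : Module.Finite B Y.M) (hZ : Module.Finite R Z.M) (ι : X.M →+ Z.M) (κ : Y.M →+ Z.M)
    (hι : Pro φ 𝔞 𝔯 ι) (hκ : Pro ψ 𝔟 𝔯 κ) (hιC : ∀ x, ι (X.C x) = Z.C (ι x))
    (hκC : ∀ x, κ (Y.C x) = Z.C (κ x)) (ys : List A) (zs : List B)
    (hys : Ideal.span {y | y ∈ ys} = 𝔞) (hzs : Ideal.span {z | z ∈ zs} = 𝔟) :
    CMod.LP ys X = CMod.LP zs Y := by
  have hm : ∀ {A R : Type} [CommRing A] [CommRing R] (f : A →+* R) (l : List A),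
      Ideal.span {z | z ∈ l.map f} = (Ideal.span {y | y ∈ l}).map f := by
    intro A R _ _ f l
    rw [Ideal.map_span]
    congr 1
    ext z
    simp
  have h1 : Ideal.span {z | z ∈ ys.map φ} = 𝔯 := by rw [hm, hys, ha]
  have h2 : Ideal.span {z | z ∈ zs.map ψ} = 𝔯 := by rw [hm, hzs, hb]
  have e1 := LP_pro φ 𝔞 𝔯 ha.le ys X Z hX hZ ι hι hιC 1 (by
    rw [pow_one, hys]; exact le_sup_right) (by rw [pow_one, h1]; exact le_sup_right)
  have e2 := LP_pro ψ 𝔟 𝔯 hb.le zs Y Z hY hZ κ hκ hκC 1 (by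
    rw [pow_one, hzs]; exact le_sup_right) (by rw [pow_one, h2]; exact le_sup_right)
  rw [← e1, ← e2]
  have f1 : FL (ys.map φ) Z := ⟨hZ, by rw [h1]; exact quo_le (I := 𝔯) le_sup_right⟩
  have f2 : FL (zs.map ψ) Z := ⟨hZ, by rw [h2]; exact quo_le (I := 𝔯) le_sup_right⟩
  refine LP_indep f1 f2 ?_ ?_
  · intro z hz
    refine ⟨1, Ideal.mem_sup_right ?_⟩
    rw [pow_one, h1, ← h2]
    exact Ideal.subset_span hz
  · intro y hy
    refine ⟨1, Ideal.mem_sup_right ?_⟩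
    rw [pow_one, h2, ← h1]
    exact Ideal.subset_span hy

/-- the ideal of all elements which vanish at all points of degree at most `d`: the product of the
ideals generated by the `b ^ (p ^ k) - b`, `1 ≤ k ≤ d` -/
def JJ (p d : ℕ) (B : Type) [CommRing B] : Ideal B := ∏ k ∈ Finset.Icc 1 d, frI p k B

theorem JJ_le (p : ℕ) {d : ℕ} {B : Type} [CommRing B] {k : ℕ} (h1 : 1 ≤ k) (h2 : k ≤ d) :
    JJ p d B ≤ frI p k B :=
  Ideal.prod_le_inf.trans (Finset.inf_le (Finset.mem_Icc.2 ⟨h1, h2⟩))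

/-- `B / JJ` is finite -/
theorem finite_JJ {B : Type} [CommRing B] [Algebra (ZMod p) B] [Algebra.FiniteType (ZMod p) B]
    (d : ℕ) : Finite (B ⧸ JJ p d B) := by
  have hp := (Fact.out : p.Prime)
  have h1 : Algebra.IsIntegral (ZMod p) (B ⧸ JJ p d B) := by
    refine ⟨fun x => ?_⟩
    obtain ⟨b, rfl⟩ := Ideal.Quotient.mk_surjective x
    refine ⟨∏ k ∈ Finset.Icc 1 d, (Polynomial.X ^ p ^ k - Polynomial.X), ?_, ?_⟩
    · refine Polynomial.monic_prod_of_monic _ _ fun k hk => ?_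
      have hk' := (Finset.mem_Icc.1 hk).1
      have h2 : 1 < p ^ k := Nat.one_lt_pow (by omega) hp.one_lt
      obtain ⟨n, hn⟩ : ∃ n, p ^ k = n + 1 := ⟨p ^ k - 1, by omega⟩
      rw [hn]
      refine Polynomial.monic_X_pow_sub (lt_of_le_of_lt Polynomial.degree_X_le ?_)
      have h3 : 1 < n + 1 := by omega
      exact_mod_cast h3
    · rw [Polynomial.eval₂_finsetProd]
      have h2 : ∏ k ∈ Finset.Icc 1 d, (b ^ p ^ k - b) ∈ JJ p d B :=
        Ideal.prod_mem_prod fun k _ => Ideal.subset_span ⟨b, rfl⟩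
      rw [← Ideal.Quotient.eq_zero_iff_mem, map_prod] at h2
      rw [← h2]
      refine Finset.prod_congr rfl fun k _ => ?_
      rw [Polynomial.eval₂_sub, Polynomial.eval₂_pow, Polynomial.eval₂_X, map_sub, map_pow]
  have h2 : Algebra.FiniteType (ZMod p) (B ⧸ JJ p d B) := inferInstance
  have h3 : Module.Finite (ZMod p) (B ⧸ JJ p d B) :=
    Algebra.finite_iff_isIntegral_and_finiteType.2 ⟨h1, h2⟩
  exact Module.finite_of_finite (ZMod p)

/-- the leaf formula with generators of `JJ` -/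
theorem P_JJ {B : Type} [CommRing B] [Algebra (ZMod p) B] [Algebra.FiniteType (ZMod p) B]
    (X : CMod p B) (hX : Module.Finite B X.M) (d : ℕ) (ys : List B)
    (hys : Ideal.span {y | y ∈ ys} = JJ p d B) :
    Cg d (X.P : PowerSeries (ZMod p)) (CMod.LP ys X : PowerSeries (ZMod p)) := by
  refine t_A6 p B X d ys fun y hy k h1 h2 => JJ_le p h1 h2 ?_
  rw [← hys]
  exact Ideal.subset_span hy

theorem eq_of_Cg {u v : (PowerSeries (ZMod p))ˣ}
    (h : ∀ d, Cg d (u : PowerSeries (ZMod p)) (v : PowerSeries (ZMod p))) : u = v := by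
  apply Units.ext
  apply PowerSeries.ext
  intro n
  exact h n n le_rfl

/-- COMPARISON. Two Cartier modules over finitely generated algebras whose completions along the ideals
`JJ p d` are isomorphic for all `d` have the same polynomial. -/
theorem P_cmp {A B : Type} [CommRing A] [CommRing B] [Algebra (ZMod p) A] [Algebra (ZMod p) B]
    [Algebra.FiniteType (ZMod p) A] [Algebra.FiniteType (ZMod p) B]
    (X : CMod p A) (Y : CMod p B) (hX : Module.Finite A X.M) (hY : Module.Finite B Y.M)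
    (h : ∀ d : ℕ, ∃ (R : Type) (_ : CommRing R) (_ : Algebra (ZMod p) R) (_ : IsNoetherianRing R)
      (φ : A →+* R) (ψ : B →+* R) (𝔯 : Ideal R) (Z : CMod p R) (ι : X.M →+ Z.M) (κ : Y.M →+ Z.M),
      (JJ p d A).map φ = 𝔯 ∧ (JJ p d B).map ψ = 𝔯 ∧ Finite (R ⧸ 𝔯) ∧ Module.Finite R Z.M ∧
      Pro φ (JJ p d A) 𝔯 ι ∧ Pro ψ (JJ p d B) 𝔯 κ ∧ (∀ x, ι (X.C x) = Z.C (ι x)) ∧
      ∀ x, κ (Y.C x) = Z.C (κ x)) : X.P = Y.P := by
  have hA := noeth (p := p) (R := A)
  have hB := noeth (p := p) (R := B)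
  refine eq_of_Cg fun d => ?_
  obtain ⟨R, _, _, _, φ, ψ, 𝔯, Z, ι, κ, h1, h2, h3, h4, h5, h6, h7, h8⟩ := h d
  obtain ⟨ys, hys⟩ := exists_gens (JJ p d A) (IsNoetherian.noetherian _)
  obtain ⟨zs, hzs⟩ := exists_gens (JJ p d B) (IsNoetherian.noetherian _)
  have e := LP_cmp φ ψ (JJ p d A) (JJ p d B) 𝔯 h1 h2 h3 X Y Z hX hY h4 ι κ h5 h6 h7 h8 ys zs
    hys hzs
  have e1 := P_JJ X hX d ys hys
  have e2 := P_JJ Y hY d zs hzs
  intro k hk
  rw [e1 k hk, e2 k hk, e]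

end Pool.Agent.SuInd
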