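import Pool.Agent.Lib.MP_305fdd_al.Fr.N.A.Main
import Pool.Agent.Lib.MP_305fdd_al.Fr.N.E.p_pro
import Pool.Agent.Lib.MP_305fdd_al.Fr.N.E.p_prok

/-!
# MP_305fdd_al, surface groups, block (ind): local indices of Cartier modules

`CMod.LP ys X` is the alternating product of the polynomials of the leaves (iterated kernels and
quotients).  If the leaves are finite (`FL ys X`) it is multiplicative in exact sequences and does
not depend on the order of the `ys` nor on the choice of the `ys` (only on the radical of the ideal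
generated by the `ys` and the annihilator of the module).  No condition on the ring but `Noetherian`.
-/

set_option autoImplicit false
set_option linter.unusedSectionVars false

namespace Pool.Agent.SuInd

open Pool.Agent.FrN Pool.Agent.FrNA Pool.Agent.F2Ch

variable {p : ℕ} [Fact p.Prime] {R : Type} [CommRing R] [Algebra (ZMod p) R]

/-! ### finite Cartier modules -/

theorem mfin (X : CMod p R) [Finite X.M] : Module.Finite (ZMod p) X.M := by
  infer_instance

theorem nuc_fin (X : CMod p R) [Finite X.M] : ∃ W, Nuc X.C ⊤ W := by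
  have := mfin X
  exact ⟨⊤, nuc_top.2 (abs_top X.C)⟩

theorem P_ex {X' X X'' : CMod p R} [Finite X.M] {i : X'.M →ₗ[R] X.M} {q : X.M →ₗ[R] X''.M}
    (h : Ex X' X X'' i q) : X.P = X'.P * X''.P := by
  have := p_ex (ZMod p) X'.M X.M X''.M X'.C X.C X''.C (i.restrictScalars (ZMod p))
    (q.restrictScalars (ZMod p)) h.inj h.surj ?_ ?_ ?_ (nuc_fin X)
  · exact this.2.2
  · ext m
    rw [LinearMap.mem_range, LinearMap.mem_ker]
    exact (h.ex m).symm
  · intro v
    exact (h.eqi v).symm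
  · intro v
    exact (h.eqq v).symm

theorem P_one {X : CMod p R} [Finite X.M] (h : ∀ m : X.M, ∃ e : ℕ, (X.C ^ e) m = 0) :
    X.P = 1 :=
  (p_nil (ZMod p) X.M X.C ⊤ (nuc_fin X)).1 fun v _ => h v

/-! ### finiteness of the leaves -/

/-- the leaves of `LP ys X` are finite -/
structure FL (ys : List R) (X : CMod p R) : Prop where
  fin : Module.Finite R X.M
  quo : Finite (R ⧸ (Module.annihilator R X.M ⊔ Ideal.span {y | y ∈ ys}))

theorem quo_le {I J : Ideal R} (h : I ≤ J) [Finite (R ⧸ I)] : Finite (R ⧸ J) :=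
  Finite.of_surjective _ (Ideal.Quotient.factor_surjective h)

theorem FL.nil {X : CMod p R} (h : FL [] X) : Finite X.M := by
  have h1 := h.fin
  have h2 : Finite (R ⧸ Module.annihilator R X.M) := by
    have := h.quo
    exact quo_le (I := Module.annihilator R X.M ⊔ Ideal.span {y | y ∈ ([] : List R)}) (by simp)
  obtain ⟨n, s, hs⟩ := Module.Finite.exists_fin (R := R) (M := X.M)
  let f : (Fin n → R ⧸ Module.annihilator R X.M) → X.M := fun c =>
    ∑ i, (c i).out • s i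
  refine Finite.of_surjective f fun m => ?_
  have hm : m ∈ Submodule.span R (Set.range s) := by rw [hs]; trivial
  obtain ⟨c, rfl⟩ := (Submodule.mem_span_range_iff_exists_fun R).1 hm
  refine ⟨fun i => Ideal.Quotient.mk _ (c i), ?_⟩
  refine Finset.sum_congr rfl fun i _ => ?_
  have h3 : (Ideal.Quotient.mk (Module.annihilator R X.M)
      (Quotient.out (Ideal.Quotient.mk (Module.annihilator R X.M) (c i)))) =
      Ideal.Quotient.mk (Module.annihilator R X.M) (c i) := Quotient.out_eq' _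
  rw [Ideal.Quotient.eq, Module.mem_annihilator] at h3
  have h4 := h3 (s i)
  rw [sub_smul, sub_eq_zero] at h4
  exact h4

theorem FL.of_le {ys zs : List R} {X Y : CMod p R} (h : FL ys X) (hf : Module.Finite R Y.M)
    (hle : Module.annihilator R X.M ⊔ Ideal.span {y | y ∈ ys} ≤
      Module.annihilator R Y.M ⊔ Ideal.span {y | y ∈ zs}) : FL zs Y := by
  have := h.quo
  exact ⟨hf, quo_le hle⟩

theorem FL.kr [IsNoetherianRing R] {y : R} {ys : List R} {X : CMod p R} (h : FL (y :: ys) X) :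
    FL ys (X.kr y) := by
  have := h.fin
  refine h.of_le (FrNE.pro_fin_kr X y) ?_
  rw [FrNE.pro_span, ← sup_assoc]
  exact sup_le_sup_right (FrNE.pro_ann_kr X y) _

theorem FL.qt [IsNoetherianRing R] {y : R} {ys : List R} {X : CMod p R} (h : FL (y :: ys) X) :
    FL ys (X.qt y) := by
  have := h.fin
  refine h.of_le (FrNE.pro_fin_qt X y) ?_
  rw [FrNE.pro_span, ← sup_assoc]
  exact sup_le_sup_right (FrNE.pro_ann_qt X y) _

theorem ann_sub {X' X X'' : CMod p R} {i : X'.M →ₗ[R] X.M} {q : X.M →ₗ[R] X''.M}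
    (h : Ex X' X X'' i q) : Module.annihilator R X.M ≤ Module.annihilator R X'.M := by
  intro a ha
  rw [Module.mem_annihilator] at ha ⊢
  intro m
  apply h.inj
  rw [map_smul, ha, map_zero]

theorem ann_quo {X' X X'' : CMod p R} {i : X'.M →ₗ[R] X.M} {q : X.M →ₗ[R] X''.M}
    (h : Ex X' X X'' i q) : Module.annihilator R X.M ≤ Module.annihilator R X''.M := by
  intro a ha
  rw [Module.mem_annihilator] at ha ⊢
  intro m
  obtain ⟨m, rfl⟩ := h.surj m
  rw [← map_smul, ha, map_zero]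

theorem fin_sub [IsNoetherianRing R] {X' X X'' : CMod p R} {i : X'.M →ₗ[R] X.M}
    {q : X.M →ₗ[R] X''.M} (h : Ex X' X X'' i q) (hf : Module.Finite R X.M) :
    Module.Finite R X'.M :=
  Module.Finite.of_injective i h.inj

theorem fin_quo {X' X X'' : CMod p R} {i : X'.M →ₗ[R] X.M}
    {q : X.M →ₗ[R] X''.M} (h : Ex X' X X'' i q) (hf : Module.Finite R X.M) :
    Module.Finite R X''.M :=
  Module.Finite.of_surjective q h.surj

theorem FL.sub [IsNoetherianRing R] {ys : List R} {X' X X'' : CMod p R} {i : X'.M →ₗ[R] X.M}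
    {q : X.M →ₗ[R] X''.M} (hX : FL ys X) (h : Ex X' X X'' i q) : FL ys X' :=
  hX.of_le (fin_sub h hX.fin) (sup_le_sup_right (ann_sub h) _)

theorem FL.quot {ys : List R} {X' X X'' : CMod p R} {i : X'.M →ₗ[R] X.M}
    {q : X.M →ₗ[R] X''.M} (hX : FL ys X) (h : Ex X' X X'' i q) : FL ys X'' :=
  hX.of_le (fin_quo h hX.fin) (sup_le_sup_right (ann_quo h) _)

/-! ### submodules -/

/-- a stable submodule of a Cartier module -/
def sb (X : CMod p R) (S : Submodule R X.M) (hS : ∀ x ∈ S, X.C x ∈ S) : CMod p R where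
  M := S
  C :=
    { toFun := fun x => ⟨X.C x.1, hS x.1 x.2⟩
      map_add' := fun x y => Subtype.ext (map_add X.C x.1 y.1)
      map_smul' := fun c x => Subtype.ext (map_smul X.C c x.1) }
  hC b m := Subtype.ext (X.hC b m.1)

theorem st_ker {X Y : CMod p R} (f : X.M →ₗ[R] Y.M) (hf : ∀ m, Y.C (f m) = f (X.C m)) :
    ∀ x ∈ LinearMap.ker f, X.C x ∈ LinearMap.ker f := by
  intro x hx
  rw [LinearMap.mem_ker] at hx ⊢
  rw [← hf, hx, map_zero]

theorem st_range {X Y : CMod p R} (f : X.M →ₗ[R] Y.M) (hf : ∀ m, Y.C (f m) = f (X.C m)) :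
    ∀ x ∈ LinearMap.range f, Y.C x ∈ LinearMap.range f := by
  rintro _ ⟨x, rfl⟩
  exact ⟨X.C x, (hf x).symm⟩

/-- kernel and image -/
theorem ex_kr {X Y : CMod p R} (f : X.M →ₗ[R] Y.M) (hf : ∀ m, Y.C (f m) = f (X.C m)) :
    Ex (sb X (LinearMap.ker f) (st_ker f hf)) X (sb Y (LinearMap.range f) (st_range f hf))
      (LinearMap.ker f).subtype f.rangeRestrict where
  inj := Subtype.val_injective
  surj := f.surjective_rangeRestrict
  ex m := by
    constructor
    · intro h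
      exact ⟨⟨m, congrArg Subtype.val h⟩, rfl⟩
    · rintro ⟨x, rfl⟩
      exact Subtype.ext x.2
  eqi m := rfl
  eqq m := Subtype.ext (hf m)

/-- an injective map and the image of the next one -/
theorem ex_inj {X Y Z : CMod p R} (f : X.M →ₗ[R] Y.M) (hf : ∀ m, Y.C (f m) = f (X.C m))
    (g : Y.M →ₗ[R] Z.M) (hg : ∀ m, Z.C (g m) = g (Y.C m)) (hi : Function.Injective f)
    (he : ∀ m, g m = 0 ↔ ∃ x, f x = m) :
    Ex X Y (sb Z (LinearMap.range g) (st_range g hg)) f g.rangeRestrict where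
  inj := hi
  surj := g.surjective_rangeRestrict
  ex m := by
    rw [← he]
    exact ⟨fun h => congrArg Subtype.val h, fun h => Subtype.ext h⟩
  eqi m := hf m
  eqq m := Subtype.ext (hg m)

/-- the image of a map and the cokernel -/
theorem ex_surj {X Y Z : CMod p R} (f : X.M →ₗ[R] Y.M) (hf : ∀ m, Y.C (f m) = f (X.C m))
    (g : Y.M →ₗ[R] Z.M) (hg : ∀ m, Z.C (g m) = g (Y.C m)) (hi : Function.Surjective g)
    (he : ∀ m, g m = 0 ↔ ∃ x, f x = m) :
    Ex (sb Y (LinearMap.range f) (st_range f hf)) Y Z (LinearMap.range f).subtype g where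
  inj := Subtype.val_injective
  surj := hi
  ex m := by
    rw [he]
    exact ⟨fun ⟨x, h⟩ => ⟨⟨m, x, h⟩, rfl⟩, fun ⟨⟨_, x, h⟩, h'⟩ => ⟨x, h.trans h'⟩⟩
  eqi m := rfl
  eqq m := hg m

/-- the image of a map and the image of the next one -/
theorem ex_mid {X Y Z : CMod p R} (f : X.M →ₗ[R] Y.M) (hf : ∀ m, Y.C (f m) = f (X.C m))
    (g : Y.M →ₗ[R] Z.M) (hg : ∀ m, Z.C (g m) = g (Y.C m))
    (he : ∀ m, g m = 0 ↔ ∃ x, f x = m) :
    Ex (sb Y (LinearMap.range f) (st_range f hf)) Y (sb Z (LinearMap.range g) (st_range g hg))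
      (LinearMap.range f).subtype g.rangeRestrict where
  inj := Subtype.val_injective
  surj := g.surjective_rangeRestrict
  ex m := by
    constructor
    · intro h
      obtain ⟨x, hx⟩ := (he m).1 (congrArg Subtype.val h)
      exact ⟨⟨m, x, hx⟩, rfl⟩
    · rintro ⟨⟨_, x, hx⟩, rfl⟩
      exact Subtype.ext ((he _).2 ⟨x, hx⟩)
  eqi m := rfl
  eqq m := Subtype.ext (hg m)

/-- the six term sequence -/
theorem six {Λ : CMod p R → (PowerSeries (ZMod p))ˣ} {A B C D E F : CMod p R}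
    (f₁ : A.M →ₗ[R] B.M) (h₁ : ∀ m, B.C (f₁ m) = f₁ (A.C m))
    (f₂ : B.M →ₗ[R] C.M) (h₂ : ∀ m, C.C (f₂ m) = f₂ (B.C m))
    (f₃ : C.M →ₗ[R] D.M) (h₃ : ∀ m, D.C (f₃ m) = f₃ (C.C m))
    (f₄ : D.M →ₗ[R] E.M) (h₄ : ∀ m, E.C (f₄ m) = f₄ (D.C m))
    (f₅ : E.M →ₗ[R] F.M) (h₅ : ∀ m, F.C (f₅ m) = f₅ (E.C m))
    (e₁ : Function.Injective f₁) (e₂ : ∀ m, f₂ m = 0 ↔ ∃ x, f₁ x = m)
    (e₃ : ∀ m, f₃ m = 0 ↔ ∃ x, f₂ x = m) (e₄ : ∀ m, f₄ m = 0 ↔ ∃ x, f₃ x = m)
    (e₅ : ∀ m, f₅ m = 0 ↔ ∃ x, f₄ x = m) (e₆ : Function.Surjective f₅)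
    (hB : ∀ (X' X'' : CMod p R) i q, Ex X' B X'' i q → Λ B = Λ X' * Λ X'')
    (hC : ∀ (X' X'' : CMod p R) i q, Ex X' C X'' i q → Λ C = Λ X' * Λ X'')
    (hD : ∀ (X' X'' : CMod p R) i q, Ex X' D X'' i q → Λ D = Λ X' * Λ X'')
    (hE : ∀ (X' X'' : CMod p R) i q, Ex X' E X'' i q → Λ E = Λ X' * Λ X'') :
    Λ B / Λ E = Λ A / Λ D * (Λ C / Λ F) := by
  rw [hB _ _ _ _ (ex_inj f₁ h₁ f₂ h₂ e₁ e₂), hC _ _ _ _ (ex_mid f₂ h₂ f₃ h₃ e₃),
    hD _ _ _ _ (ex_mid f₃ h₃ f₄ h₄ e₄), hE _ _ _ _ (ex_surj f₄ h₄ f₅ h₅ e₆ e₅)]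
  rw [div_mul_div_comm, div_eq_div_iff_mul_eq_mul]
  simp only [mul_comm, mul_left_comm, mul_assoc]

/-! ### factorisations -/

/-- a linear map through a surjective one -/
theorem fac {P A B : Type} [AddCommGroup P] [Module R P] [AddCommGroup A] [Module R A]
    [AddCommGroup B] [Module R B] (α : P →ₗ[R] A) (β : P →ₗ[R] B) (hα : Function.Surjective α)
    (hk : ∀ m, α m = 0 → β m = 0) : ∃ γ : A →ₗ[R] B, ∀ m, γ (α m) = β m := by
  refine ⟨(LinearMap.ker α).liftQ β (fun m hm => hk m hm) ∘ₗ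
    (α.quotKerEquivOfSurjective hα).symm.toLinearMap, fun m => ?_⟩
  rw [LinearMap.comp_apply]
  have : (α.quotKerEquivOfSurjective hα).symm.toLinearMap (α m) = (LinearMap.ker α).mkQ m := by
    rw [LinearEquiv.coe_coe, LinearEquiv.symm_apply_eq]
    rfl
  rw [this]
  rfl

/-- the connecting homomorphism -/
theorem conn {X' X X'' : CMod p R} {i : X'.M →ₗ[R] X.M} {q : X.M →ₗ[R] X''.M}
    (h : Ex X' X X'' i q) (y : R) :
    ∃ δ : (X''.kr y).M →ₗ[R] (X'.qt y).M, ∀ (m : X.M) (hm : y • q m = 0) (x' : X'.M),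
      i x' = y • m → δ ⟨q m, hm⟩ = X'.proj y x' := by
  let P : Submodule R X.M := (LinearMap.ker (LinearMap.lsmul R X''.M y)).comap q
  have hP : ∀ m : P, y • (m : X.M) ∈ LinearMap.range i := by
    intro m
    have h1 : y • q m = 0 := m.2
    rw [← map_smul] at h1
    obtain ⟨x, hx⟩ := (h.ex _).1 h1
    exact ⟨x, hx⟩
  let u : P →ₗ[R] LinearMap.range i :=
    { toFun := fun m => ⟨y • (m : X.M), hP m⟩
      map_add' := fun a b => Subtype.ext (by
        change y • ((a : X.M) + (b : X.M)) = y • (a : X.M) + y • (b : X.M)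
        rw [smul_add])
      map_smul' := fun c a => Subtype.ext (by
        change y • (c • (a : X.M)) = c • (y • (a : X.M))
        rw [smul_comm]) }
  let β : P →ₗ[R] (X'.qt y).M :=
    X'.proj y ∘ₗ (LinearEquiv.ofInjective i h.inj).symm.toLinearMap ∘ₗ u
  have hβ : ∀ (m : P) (x' : X'.M), i x' = y • (m : X.M) → β m = X'.proj y x' := by
    intro m x' hx
    change X'.proj y ((LinearEquiv.ofInjective i h.inj).symm (u m)) = X'.proj y x'
    congr 1
    rw [LinearEquiv.symm_apply_eq]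
    exact Subtype.ext hx.symm
  let α : P →ₗ[R] (X''.kr y).M := (q ∘ₗ P.subtype).codRestrict _ fun m => m.2
  have hα : Function.Surjective α := by
    intro m
    obtain ⟨x, hx⟩ := h.surj m.1
    refine ⟨⟨x, ?_⟩, Subtype.ext hx⟩
    change y • q x = 0
    rw [hx]
    exact m.2
  obtain ⟨δ, hδ⟩ := fac α β hα (by
    intro m hm
    have h1 : q m = 0 := congrArg Subtype.val hm
    obtain ⟨x, hx⟩ := (h.ex _).1 h1
    rw [hβ m (y • x) (by rw [map_smul, hx])]
    refine (Submodule.Quotient.mk_eq_zero _).2 ⟨x, rfl⟩)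
  refine ⟨δ, fun m hm x' hx' => ?_⟩
  rw [← hβ ⟨m, hm⟩ x' hx', ← hδ]
  rfl

/-! ### `LP` is multiplicative -/

theorem LP_cons (y : R) (ys : List R) (X : CMod p R) :
    CMod.LP (y :: ys) X = CMod.LP ys (X.kr y) / CMod.LP ys (X.qt y) := rfl

section lp

variable [IsNoetherianRing R]

/-- `LP` is multiplicative in exact sequences -/
theorem LP_ex (ys : List R) : ∀ {X' X X'' : CMod p R} {i : X'.M →ₗ[R] X.M}
    {q : X.M →ₗ[R] X''.M}, FL ys X → Ex X' X X'' i q →
    CMod.LP ys X = CMod.LP ys X' * CMod.LP ys X'' := by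
  have hp := (Fact.out : p.Prime).one_le
  have hpp : ∀ y : R, y ^ p = y ^ (p - 1) * y := fun y => by
    rw [← pow_succ, Nat.sub_add_cancel hp]
  induction ys with
  | nil =>
    intro X' X X'' i q hX h
    have := hX.nil
    exact P_ex h
  | cons y ys ih =>
    intro X' X X'' i q hX h
    have hX' := hX.sub h
    have hX'' := hX.quot h
    rw [LP_cons, LP_cons, LP_cons]
    obtain ⟨δ, hδ⟩ := conn h y
    -- the maps between the kernels
    have k1 : ∀ m : X'.M, y • m = 0 → y • i m = 0 := fun m hm => by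
      rw [← map_smul, hm, map_zero]
    have k2 : ∀ m : X.M, y • m = 0 → y • q m = 0 := fun m hm => by
      rw [← map_smul, hm, map_zero]
    let f₁ : (X'.kr y).M →ₗ[R] (X.kr y).M :=
      i.restrict (p := LinearMap.ker (LinearMap.lsmul R X'.M y))
        (q := LinearMap.ker (LinearMap.lsmul R X.M y)) fun m hm => k1 m hm
    let f₂ : (X.kr y).M →ₗ[R] (X''.kr y).M :=
      q.restrict (p := LinearMap.ker (LinearMap.lsmul R X.M y))
        (q := LinearMap.ker (LinearMap.lsmul R X''.M y)) fun m hm => k2 m hm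
    have q1 : LinearMap.range (LinearMap.lsmul R X'.M y) ≤
        (LinearMap.range (LinearMap.lsmul R X.M y)).comap i := by
      rintro _ ⟨m, rfl⟩
      exact ⟨i m, (map_smul i y m).symm⟩
    have q2 : LinearMap.range (LinearMap.lsmul R X.M y) ≤
        (LinearMap.range (LinearMap.lsmul R X''.M y)).comap q := by
      rintro _ ⟨m, rfl⟩
      exact ⟨q m, (map_smul q y m).symm⟩
    let f₄ : (X'.qt y).M →ₗ[R] (X.qt y).M := Submodule.mapQ _ _ i q1
    let f₅ : (X.qt y).M →ₗ[R] (X''.qt y).M := Submodule.mapQ _ _ q q2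
    have hf₄ : ∀ m, f₄ (X'.proj y m) = X.proj y (i m) := fun m => rfl
    have hf₅ : ∀ m, f₅ (X.proj y m) = X''.proj y (q m) := fun m => rfl
    have hz : ∀ (Y : CMod p R) (m : Y.M), Y.proj y m = 0 ↔ ∃ x, y • x = m := fun Y m =>
      (Submodule.Quotient.mk_eq_zero _).trans ⟨fun ⟨x, hx⟩ => ⟨x, hx⟩, fun ⟨x, hx⟩ => ⟨x, hx⟩⟩
    have hs : ∀ (Y : CMod p R) (m : (Y.qt y).M), ∃ x, Y.proj y x = m := fun Y m =>
      Submodule.mkQ_surjective _ m
    refine six (Λ := CMod.LP ys) f₁ ?_ f₂ ?_ δ ?_ f₄ ?_ f₅ ?_ ?_ ?_ ?_ ?_ ?_ ?_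
      (fun _ _ _ _ => ih hX.kr) (fun _ _ _ _ => ih hX''.kr) (fun _ _ _ _ => ih hX'.qt)
      (fun _ _ _ _ => ih hX.qt)
    · exact fun m => Subtype.ext (h.eqi m.1)
    · exact fun m => Subtype.ext (h.eqq m.1)
    · -- equivariance of the connecting map
      intro m
      obtain ⟨x, hx⟩ := h.surj m.1
      have hm : y • q x = 0 := by rw [hx]; exact m.2
      have h1 : q (y • x) = 0 := by rw [map_smul]; exact hm
      obtain ⟨x', hx'⟩ := (h.ex _).1 h1
      have h2 : m = ⟨q x, hm⟩ := Subtype.ext hx.symm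
      have h3 : y • q (X.C x) = 0 := by
        rw [← h.eqq, ← X''.hC, hpp, mul_smul, hm, smul_zero, map_zero]
      have h4 : (X''.kr y).C ⟨q x, hm⟩ = ⟨q (X.C x), h3⟩ := Subtype.ext (h.eqq x)
      rw [h2, h4, hδ x hm x' hx', hδ (X.C x) h3 (X'.C (y ^ (p - 1) • x')), CMod.proj_C]
      rw [← h.eqi, map_smul, hx', ← X.hC, hpp, mul_smul]
    · intro m
      obtain ⟨m, rfl⟩ := hs X' m
      rw [CMod.proj_C, hf₄, hf₄, CMod.proj_C, ← h.eqi, map_smul i]
    · intro m
      obtain ⟨m, rfl⟩ := hs X m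
      rw [CMod.proj_C, hf₅, hf₅, CMod.proj_C, ← h.eqq, map_smul q]
    · intro a b hab
      exact Subtype.ext (h.inj (congrArg Subtype.val hab))
    · intro m
      constructor
      · intro hm
        obtain ⟨x, hx⟩ := (h.ex _).1 (congrArg Subtype.val hm)
        have h1 : y • x = 0 := by
          apply h.inj
          rw [map_smul, hx, map_zero]
          exact m.2
        exact ⟨⟨x, h1⟩, Subtype.ext hx⟩
      · rintro ⟨x, rfl⟩
        exact Subtype.ext ((h.ex _).2 ⟨x.1, rfl⟩)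
    · intro m
      obtain ⟨x, hx⟩ := h.surj m.1
      have hm : y • q x = 0 := by rw [hx]; exact m.2
      have h1 : q (y • x) = 0 := by rw [map_smul]; exact hm
      obtain ⟨x', hx'⟩ := (h.ex _).1 h1
      have h2 : m = ⟨q x, hm⟩ := Subtype.ext hx.symm
      rw [h2, hδ x hm x' hx', hz]
      constructor
      · rintro ⟨a, rfl⟩
        have h3 : y • (x - i a) = 0 := by
          rw [smul_sub, ← hx', map_smul, sub_self]
        refine ⟨⟨x - i a, h3⟩, Subtype.ext ?_⟩
        change q (x - i a) = q x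
        rw [map_sub, (h.ex (i a)).2 ⟨a, rfl⟩, sub_zero]
      · rintro ⟨z, hz'⟩
        have h3 : q z.1 = q x := congrArg Subtype.val hz'
        have h4 : q (x - z.1) = 0 := by rw [map_sub, h3, sub_self]
        obtain ⟨a, ha⟩ := (h.ex _).1 h4
        refine ⟨a, h.inj ?_⟩
        have h5 : y • z.1 = 0 := z.2
        rw [map_smul, ha, smul_sub, h5, sub_zero, hx']
    · intro m
      obtain ⟨x', rfl⟩ := hs X' m
      rw [hf₄, hz]
      constructor
      · rintro ⟨x, hx⟩
        have hm : y • q x = 0 := by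
          rw [← map_smul, hx]
          exact (h.ex _).2 ⟨x', rfl⟩
        exact ⟨⟨q x, hm⟩, hδ x hm x' hx.symm⟩
      · rintro ⟨m, hm⟩
        obtain ⟨x, hx⟩ := h.surj m.1
        have hm' : y • q x = 0 := by rw [hx]; exact m.2
        have h1 : q (y • x) = 0 := by rw [map_smul]; exact hm'
        obtain ⟨x'', hx''⟩ := (h.ex _).1 h1
        have h2 : m = ⟨q x, hm'⟩ := Subtype.ext hx.symm
        rw [h2, hδ x hm' x'' hx'', ← sub_eq_zero, ← map_sub, hz] at hm
        obtain ⟨a, ha⟩ := hm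
        refine ⟨x - i a, ?_⟩
        rw [smul_sub, ← hx'', ← map_smul, ha, map_sub]
        abel
    · intro m
      obtain ⟨m, rfl⟩ := hs X m
      rw [hf₅, hz]
      constructor
      · rintro ⟨x, hx⟩
        obtain ⟨z, rfl⟩ := h.surj x
        have h1 : q (m - y • z) = 0 := by rw [map_sub, map_smul, hx, sub_self]
        obtain ⟨a, ha⟩ := (h.ex _).1 h1
        refine ⟨X'.proj y a, ?_⟩
        rw [hf₄, ha, map_sub, sub_eq_self, hz]
        exact ⟨z, rfl⟩
      · rintro ⟨x, hx⟩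
        obtain ⟨a, rfl⟩ := hs X' x
        rw [hf₄, ← sub_eq_zero, ← map_sub, hz] at hx
        obtain ⟨z, hz'⟩ := hx
        refine ⟨-q z, ?_⟩
        rw [smul_neg, ← map_smul, hz', map_sub, (h.ex _).2 ⟨a, rfl⟩]
        abel
    · intro m
      obtain ⟨m, rfl⟩ := hs X'' m
      obtain ⟨x, rfl⟩ := h.surj m
      exact ⟨X.proj y x, hf₅ x⟩

end lp

end Pool.Agent.SuInd
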