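import Pool.Agent.Lib.MP_305fdd_al.Su.Ind.Swap

/-!
# MP_305fdd_al, surface groups, block (ind): independence of the parameters
-/

set_option autoImplicit false
set_option linter.unusedSectionVars false

namespace Pool.Agent.SuInd

open Pool.Agent.FrN Pool.Agent.FrNA Pool.Agent.F2Ch

variable {p : ℕ} [Fact p.Prime] {R : Type} [CommRing R] [Algebra (ZMod p) R]

theorem FL.congr {ys zs : List R} {X : CMod p R} (h : FL ys X)
    (hs : Ideal.span {y | y ∈ ys} ≤ Ideal.span {z | z ∈ zs}) : FL zs X :=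
  h.of_le h.fin (sup_le_sup_left hs _)

theorem FL.append {ys : List R} {X : CMod p R} (h : FL ys X) (zs : List R) : FL (ys ++ zs) X :=
  h.congr (Ideal.span_mono fun _ hy => List.mem_append_left _ hy)

theorem FL.append' {zs : List R} {X : CMod p R} (h : FL zs X) (ys : List R) : FL (ys ++ zs) X :=
  h.congr (Ideal.span_mono fun _ hy => List.mem_append_right _ hy)

/-- the order of the parameters -/
theorem LP_perm [IsNoetherianRing R] {ys zs : List R} (hp : ys.Perm zs) :
    ∀ {X : CMod p R}, FL ys X → CMod.LP ys X = CMod.LP zs X := by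
  induction hp with
  | nil => intro X _; rfl
  | cons x _ ih =>
    intro X h
    rw [LP_cons, LP_cons, ih h.kr, ih h.qt]
  | swap x y l => intro X h; exact LP_swap h
  | trans h₁ h₂ ih₁ ih₂ =>
    intro X h
    rw [ih₁ h, ih₂ (h.congr (Ideal.span_mono fun y hy => h₁.mem_iff.1 hy))]

/-! ### nilpotent elements on finite modules -/

theorem tw_pow (X : CMod p R) (z : R) (T : Module.End (ZMod p) X.M)
    (hT : ∀ m, T m = X.C (z ^ (p - 1) • m)) (e : ℕ) : ∀ m : X.M,
    (T ^ e) m = (X.C ^ e) (z ^ (p ^ e - 1) • m) := by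
  have hp := (Fact.out : p.Prime).one_le
  induction e with
  | zero =>
    intro m
    rw [pow_zero, pow_zero, pow_zero, Nat.sub_self, pow_zero, one_smul]
  | succ e ih =>
    intro m
    have h3 : 1 ≤ p ^ e := Nat.one_le_pow _ _ hp
    have h4 : (p ^ e - 1) * p + (p - 1) = p ^ (e + 1) - 1 := by
      rw [Nat.sub_mul, one_mul, ← pow_succ]
      have h5 : p ≤ p ^ (e + 1) := by
        rw [pow_succ]
        exact Nat.le_mul_of_pos_left p h3
      omega
    rw [pow_succ, Module.End.mul_apply, ih, hT, ← X.hC, ← mul_smul, ← pow_mul, ← pow_add, h4,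
      pow_succ (X.C) e, Module.End.mul_apply]

theorem qt_pow (X : CMod p R) (z : R) (e : ℕ) (m : X.M) :
    ((X.qt z).C ^ e) (X.proj z m) = X.proj z ((X.C ^ e) (z ^ (p ^ e - 1) • m)) := by
  let T : Module.End (ZMod p) X.M := (X.tw (z ^ (p - 1))).C
  have h := pow_comm (f := T) (f' := (X.qt z).C) (i := (X.proj z).restrictScalars (ZMod p))
    (LinearMap.ext fun m => rfl) e m
  have h1 := tw_pow X z T (fun m => rfl) e m
  rw [h1] at h
  exact h

theorem fin_krM (X : CMod p R) (z : R) [Finite X.M] : Finite (X.kr z).M :=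
  inferInstanceAs (Finite (LinearMap.ker (LinearMap.lsmul R X.M z)))

theorem fin_qtM (X : CMod p R) (z : R) [Finite X.M] : Finite (X.qt z).M :=
  Finite.of_surjective _ (proj_surj X z)

theorem pow_big (n : ℕ) : n ≤ p ^ n - 1 := by
  have := Nat.lt_pow_self (Fact.out : p.Prime).one_lt (n := n)
  omega

theorem P_qt_nil (X : CMod p R) [Finite X.M] (z : R) (n : ℕ) (h : ∀ m : X.M, z ^ n • m = 0) :
    (X.qt z).P = 1 := by
  have := fin_qtM X z
  refine P_one fun m => ?_
  obtain ⟨m, rfl⟩ := proj_surj X z m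
  refine ⟨n, ?_⟩
  have h1 : z ^ (p ^ n - 1) • m = 0 := by
    obtain ⟨k, hk⟩ := Nat.exists_eq_add_of_le (pow_big (p := p) n)
    rw [hk, add_comm, pow_add, mul_smul, h, smul_zero]
  rw [qt_pow, h1, map_zero, map_zero]

theorem P_kr_nil (X : CMod p R) [Finite X.M] (z : R) (n : ℕ) (h : ∀ m : X.M, z ^ n • m = 0) :
    (X.kr z).P = X.P := by
  let f : X.M →ₗ[R] (X.tw (z ^ (p - 1))).M := LinearMap.lsmul R X.M z
  have hf : ∀ m, (X.tw (z ^ (p - 1))).C (f m) = f (X.C m) := fun m => C_pp X z m
  have h1 := P_ex (ex_kr f hf)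
  have h2 : Finite (sb (X.tw (z ^ (p - 1))) (LinearMap.range f) (st_range f hf)).M :=
    Finite.of_surjective _ f.surjective_rangeRestrict
  have h3 : (sb (X.tw (z ^ (p - 1))) (LinearMap.range f) (st_range f hf)).P = 1 := by
    refine P_one fun m => ⟨n, ?_⟩
    apply Subtype.ext
    let T : Module.End (ZMod p) X.M := (X.tw (z ^ (p - 1))).C
    have h4 := pow_comm (f := (sb (X.tw (z ^ (p - 1))) (LinearMap.range f) (st_range f hf)).C)
      (f' := T) (i := (LinearMap.range f).subtype.restrictScalars (ZMod p))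
      (LinearMap.ext fun m => rfl) n m
    have h5 := tw_pow X z T (fun m => rfl) n m.1
    have h6 : ∀ m : X.M, z ^ (p ^ n - 1) • m = 0 := fun m => by
      obtain ⟨k, hk⟩ := Nat.exists_eq_add_of_le (pow_big (p := p) n)
      rw [hk, add_comm, pow_add, mul_smul, h, smul_zero]
    have h7 : (X.C ^ n) (z ^ (p ^ n - 1) • (m.1 : X.M)) = 0 :=
      (congrArg (X.C ^ n) (h6 m.1)).trans (map_zero _)
    exact h4.symm.trans (h5.trans h7)
  rw [h3, mul_one] at h1
  exact h1.symm

/-- nilpotent elements do not change the polynomial of a finite module -/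
theorem LP_nilp (zs : List R) : ∀ (X : CMod p R), Finite X.M →
    (∀ z ∈ zs, ∃ n : ℕ, ∀ m : X.M, z ^ n • m = 0) → CMod.LP zs X = X.P := by
  induction zs with
  | nil => intro X _ _; rfl
  | cons z zs ih =>
    intro X hX h
    obtain ⟨n, hn⟩ := h z List.mem_cons_self
    have h1 := fin_krM X z
    have h2 := fin_qtM X z
    rw [LP_cons, ih (X.kr z) h1, ih (X.qt z) h2, P_qt_nil X z n hn, P_kr_nil X z n hn, div_one]
    · intro w hw
      obtain ⟨k, hk⟩ := h w (List.mem_cons_of_mem _ hw)
      refine ⟨k, fun m => ?_⟩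
      obtain ⟨m, rfl⟩ := proj_surj X z m
      rw [← map_smul, hk, map_zero]
    · intro w hw
      obtain ⟨k, hk⟩ := h w (List.mem_cons_of_mem _ hw)
      exact ⟨k, fun m => Subtype.ext (hk m.1)⟩

/-- further parameters -/
theorem LP_append [IsNoetherianRing R] (ys : List R) {zs : List R} : ∀ {X : CMod p R}, FL ys X →
    (∀ z ∈ zs, ∃ n : ℕ, z ^ n ∈ Module.annihilator R X.M ⊔ Ideal.span {y | y ∈ ys}) →
    CMod.LP (ys ++ zs) X = CMod.LP ys X := by
  induction ys with
  | nil =>
    intro X h hz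
    refine LP_nilp zs X h.nil fun z hz' => ?_
    obtain ⟨n, hn⟩ := hz z hz'
    have e : Ideal.span {y | y ∈ ([] : List R)} = ⊥ := by simp
    rw [e, sup_bot_eq, Module.mem_annihilator] at hn
    exact ⟨n, hn⟩
  | cons y ys ih =>
    intro X h hz
    rw [List.cons_append, LP_cons, LP_cons, ih h.kr, ih h.qt]
    · intro z hz'
      obtain ⟨n, hn⟩ := hz z hz'
      rw [FrNE.pro_span, ← sup_assoc] at hn
      exact ⟨n, sup_le_sup_right (FrNE.pro_ann_qt X y) _ hn⟩
    · intro z hz'
      obtain ⟨n, hn⟩ := hz z hz'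
      rw [FrNE.pro_span, ← sup_assoc] at hn
      exact ⟨n, sup_le_sup_right (FrNE.pro_ann_kr X y) _ hn⟩

/-- `LP` does not depend on the choice of the parameters -/
theorem LP_indep [IsNoetherianRing R] {ys zs : List R} {X : CMod p R} (hy : FL ys X)
    (hz : FL zs X)
    (h1 : ∀ z ∈ zs, ∃ n : ℕ, z ^ n ∈ Module.annihilator R X.M ⊔ Ideal.span {y | y ∈ ys})
    (h2 : ∀ y ∈ ys, ∃ n : ℕ, y ^ n ∈ Module.annihilator R X.M ⊔ Ideal.span {z | z ∈ zs}) :
    CMod.LP ys X = CMod.LP zs X := by
  rw [← LP_append ys hy h1, ← LP_append zs hz h2]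
  exact LP_perm List.perm_append_comm (hy.append zs)

/-! ### the local index -/

/-- generators of a finitely generated ideal -/
theorem exists_gens (I : Ideal R) (h : I.FG) : ∃ zs : List R, Ideal.span {z | z ∈ zs} = I := by
  obtain ⟨s, hs⟩ := h
  refine ⟨s.toList, ?_⟩
  rw [← hs]
  congr 1
  ext z
  simp

open Classical in
/-- a list of generators of a finitely generated ideal -/
noncomputable def gens (I : Ideal R) : List R :=
  if h : I.FG then (exists_gens I h).choose else []

theorem span_gens [IsNoetherianRing R] (I : Ideal R) : Ideal.span {z | z ∈ gens I} = I := by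
  have h : I.FG := IsNoetherian.noetherian I
  rw [gens, dif_pos h]
  exact (exists_gens I h).choose_spec

/-- the local index of a Cartier module at an ideal (a maximal ideal in the applications) -/
noncomputable def ind (I : Ideal R) (X : CMod p R) : (PowerSeries (ZMod p))ˣ :=
  CMod.LP (gens I) X

theorem FL_gens [IsNoetherianRing R] (I : Ideal R) [hI : Finite (R ⧸ I)] {X : CMod p R}
    (hX : Module.Finite R X.M) : FL (gens I) X := by
  refine ⟨hX, ?_⟩
  rw [span_gens]
  exact quo_le (I := I) le_sup_right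

/-- the local index can be computed with any parameters -/
theorem ind_eq [IsNoetherianRing R] (I : Ideal R) [hI : Finite (R ⧸ I)] {X : CMod p R}
    (hX : Module.Finite R X.M) {zs : List R} (h1 : ∀ z ∈ zs, ∃ n : ℕ, z ^ n ∈ I) {k : ℕ}
    (h2 : I ^ k ≤ Module.annihilator R X.M ⊔ Ideal.span {z | z ∈ zs}) :
    CMod.LP zs X = ind I X := by
  have h3 : FL zs X := by
    have := Ideal.finite_quotient_pow (IsNoetherian.noetherian I) k
    exact ⟨hX, quo_le h2⟩
  refine LP_indep h3 (FL_gens I hX) ?_ ?_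
  · intro z hz
    refine ⟨k, h2 ?_⟩
    have : z ∈ I := by
      rw [← span_gens I]
      exact Ideal.subset_span hz
    exact Ideal.pow_mem_pow this k
  · intro z hz
    obtain ⟨n, hn⟩ := h1 z hz
    rw [span_gens]
    exact ⟨n, Ideal.mem_sup_right hn⟩

/-- the local index is multiplicative in exact sequences -/
theorem ind_ex [IsNoetherianRing R] (I : Ideal R) [hI : Finite (R ⧸ I)] {X' X X'' : CMod p R}
    {i : X'.M →ₗ[R] X.M} {q : X.M →ₗ[R] X''.M} (hX : Module.Finite R X.M)
    (h : Ex X' X X'' i q) : ind I X = ind I X' * ind I X'' :=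
  LP_ex _ (FL_gens I hX) h

/-- modules without support at the point -/
theorem ind_one [IsNoetherianRing R] (I : Ideal R) {X : CMod p R}
    (h : Module.annihilator R X.M ⊔ I = ⊤) : ind I X = 1 :=
  LP_one _ X (by rw [span_gens]; exact h)

end Pool.Agent.SuInd
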