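import Pool.Agent.Lib.MP_305fdd_al.Su.Ind.Basic

/-!
# MP_305fdd_al, surface groups, block (ind): the order and the choice of the parameters
-/

set_option autoImplicit false
set_option linter.unusedSectionVars false

namespace Pool.Agent.SuInd

open Pool.Agent.FrN Pool.Agent.FrNA Pool.Agent.F2Ch

variable {p : ℕ} [Fact p.Prime] {R : Type} [CommRing R] [Algebra (ZMod p) R]

/-! ### trivial cases -/

theorem LP_one (ys : List R) : ∀ X : CMod p R,
    Module.annihilator R X.M ⊔ Ideal.span {y | y ∈ ys} = ⊤ → CMod.LP ys X = 1 := by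
  induction ys with
  | nil =>
    intro X h
    have e : Ideal.span {y | y ∈ ([] : List R)} = ⊥ := by simp
    rw [e, sup_bot_eq, Ideal.eq_top_iff_one, Module.mem_annihilator] at h
    have h0 : ∀ m : X.M, m = 0 := fun m => by rw [← one_smul R m]; exact h m
    have : Subsingleton X.M := ⟨fun a b => by rw [h0 a, h0 b]⟩
    have : Finite X.M := inferInstance
    exact P_one fun m => ⟨0, h0 _⟩
  | cons y ys ih =>
    intro X h
    rw [FrNE.pro_span, ← sup_assoc] at h
    rw [LP_cons, ih (X.kr y), ih (X.qt y), div_one]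
    · exact top_le_iff.1 (h.symm.le.trans (sup_le_sup_right (FrNE.pro_ann_qt X y) _))
    · exact top_le_iff.1 (h.symm.le.trans (sup_le_sup_right (FrNE.pro_ann_kr X y) _))

/-- the zero module -/
def zr (p : ℕ) (R : Type) [CommRing R] [Algebra (ZMod p) R] : CMod p R where
  M := PUnit
  C := 0
  hC _ _ := rfl

theorem LP_zr (ys : List R) : CMod.LP ys (zr p R) = 1 := by
  apply LP_one
  rw [eq_top_iff]
  exact le_sup_of_le_left fun a _ => Module.mem_annihilator.2 fun m => rfl

/-- `LP` of isomorphic modules -/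
theorem LP_iso [IsNoetherianRing R] {ys : List R} {X Y : CMod p R} (hX : FL ys X)
    (f : X.M →ₗ[R] Y.M) (hf : ∀ m, Y.C (f m) = f (X.C m)) (hi : ∀ m, f m = 0 → m = 0)
    (hs : Function.Surjective f) : CMod.LP ys X = CMod.LP ys Y := by
  have h : Ex (zr p R) X Y 0 f :=
    { inj := fun a b _ => rfl
      surj := hs
      ex := fun m => ⟨fun h => ⟨PUnit.unit, by rw [hi m h]; rfl⟩, fun ⟨x, hx⟩ => by
        rw [← hx, LinearMap.zero_apply, map_zero]⟩
      eqi := fun m => by rw [LinearMap.zero_apply, LinearMap.zero_apply, map_zero]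
      eqq := hf }
  rw [LP_ex ys hX h, LP_zr, one_mul]

/-- two quotients of the same module with the same kernel -/
theorem LP_two [IsNoetherianRing R] {ys : List R} {P : Type} [AddCommGroup P] [Module R P]
    (c : P → P) {X Y : CMod p R} (hX : FL ys X) (α : P →ₗ[R] X.M) (β : P →ₗ[R] Y.M)
    (hα : Function.Surjective α) (hβ : Function.Surjective β) (h : ∀ m, α m = 0 ↔ β m = 0)
    (hcα : ∀ m, X.C (α m) = α (c m)) (hcβ : ∀ m, Y.C (β m) = β (c m)) :
    CMod.LP ys X = CMod.LP ys Y := by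
  obtain ⟨γ, hγ⟩ := fac α β hα fun m => (h m).1
  refine LP_iso hX γ ?_ ?_ ?_
  · intro m
    obtain ⟨m, rfl⟩ := hα m
    rw [hγ, hcα, hγ, hcβ]
  · intro m hm
    obtain ⟨m, rfl⟩ := hα m
    rw [hγ] at hm
    exact (h m).2 hm
  · intro m
    obtain ⟨m, rfl⟩ := hβ m
    exact ⟨α m, hγ m⟩

/-! ### the module `H` -/

/-- the relations `a u + b v = 0` -/
def ZZ (X : CMod p R) (a b : R) : Submodule R (X.M × X.M) where
  carrier := {z | a • z.1 + b • z.2 = 0}
  zero_mem' := by
    change a • (0 : X.M) + b • (0 : X.M) = 0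
    rw [smul_zero, smul_zero, add_zero]
  add_mem' := by
    intro z w hz hw
    change a • z.1 + b • z.2 = 0 at hz
    change a • w.1 + b • w.2 = 0 at hw
    change a • (z.1 + w.1) + b • (z.2 + w.2) = 0
    rw [smul_add, smul_add, add_add_add_comm, hz, hw, add_zero]
  smul_mem' := by
    intro c z hz
    change a • z.1 + b • z.2 = 0 at hz
    change a • (c • z.1) + b • (c • z.2) = 0
    rw [smul_comm a, smul_comm b, ← smul_add, hz, smul_zero]

theorem mem_ZZ {X : CMod p R} {a b : R} {z : X.M × X.M} :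
    z ∈ ZZ X a b ↔ a • z.1 + b • z.2 = 0 := Iff.rfl

/-- the trivial relations -/
def NN (X : CMod p R) (a b : R) : Submodule R (ZZ X a b) where
  carrier := {z | ∃ w : X.M, z.1 = (b • w, -(a • w))}
  zero_mem' := ⟨0, by
    rw [smul_zero, smul_zero, neg_zero]
    rfl⟩
  add_mem' := by
    rintro z z' ⟨w, hw⟩ ⟨w', hw'⟩
    refine ⟨w + w', ?_⟩
    change z.1 + z'.1 = _
    rw [hw, hw', smul_add, smul_add, neg_add]
    rfl
  smul_mem' := by
    rintro c z ⟨w, hw⟩
    refine ⟨c • w, ?_⟩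
    change c • z.1 = _
    rw [hw]
    refine Prod.ext (smul_comm c b w) ?_
    change c • (-(a • w)) = -(a • c • w)
    rw [smul_neg, smul_comm c a]

theorem mem_NN {X : CMod p R} {a b : R} {z : ZZ X a b} :
    z ∈ NN X a b ↔ ∃ w : X.M, z.1 = (b • w, -(a • w)) := Iff.rfl

theorem C_pp (X : CMod p R) (a : R) (m : X.M) : X.C (a ^ (p - 1) • a • m) = a • X.C m := by
  rw [← mul_smul, ← pow_succ, Nat.sub_add_cancel (Fact.out : p.Prime).one_le, X.hC]

/-- the operator on the relations -/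
def CZ (X : CMod p R) (a b : R) (z : ZZ X a b) : ZZ X a b :=
  ⟨(X.C (b ^ (p - 1) • z.1.1), X.C (a ^ (p - 1) • z.1.2)), by
    have hz := z.2
    rw [mem_ZZ] at hz ⊢
    change a • X.C (b ^ (p - 1) • z.1.1) + b • X.C (a ^ (p - 1) • z.1.2) = 0
    rw [← C_pp, ← C_pp, smul_comm a (b ^ (p - 1)), smul_comm b (a ^ (p - 1)),
      smul_comm (b ^ (p - 1)) (a ^ (p - 1)), ← map_add, ← smul_add, ← smul_add, hz, smul_zero,
      smul_zero, map_zero]⟩

theorem CZ_NN (X : CMod p R) (a b : R) (z : ZZ X a b) (hz : z ∈ NN X a b) :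
    CZ X a b z ∈ NN X a b := by
  obtain ⟨w, hw⟩ := hz
  refine ⟨X.C w, ?_⟩
  change (X.C (b ^ (p - 1) • z.1.1), X.C (a ^ (p - 1) • z.1.2)) = _
  rw [hw]
  change (X.C (b ^ (p - 1) • b • w), X.C (a ^ (p - 1) • (-(a • w)))) = _
  rw [smul_neg, map_neg, C_pp, C_pp]

theorem CZ_add (X : CMod p R) (a b : R) (z z' : ZZ X a b) :
    CZ X a b (z + z') = CZ X a b z + CZ X a b z' := by
  apply Subtype.ext
  change (X.C (b ^ (p - 1) • (z.1.1 + z'.1.1)), X.C (a ^ (p - 1) • (z.1.2 + z'.1.2))) =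
    (X.C (b ^ (p - 1) • z.1.1) + X.C (b ^ (p - 1) • z'.1.1),
      X.C (a ^ (p - 1) • z.1.2) + X.C (a ^ (p - 1) • z'.1.2))
  rw [smul_add, smul_add, map_add, map_add]

theorem CZ_sub (X : CMod p R) (a b : R) (z z' : ZZ X a b) :
    CZ X a b (z - z') = CZ X a b z - CZ X a b z' := by
  rw [eq_sub_iff_add_eq, ← CZ_add, sub_add_cancel]

/-- the module `H` -/
def HH (X : CMod p R) (a b : R) : CMod p R where
  M := (ZZ X a b) ⧸ (NN X a b)
  C :=
    { toFun := Quotient.map' (CZ X a b) (by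
        intro u v h
        rw [Submodule.quotientRel_def] at h ⊢
        rw [← CZ_sub]
        exact CZ_NN X a b _ h)
      map_add' := by
        rintro ⟨u⟩ ⟨v⟩
        exact congrArg (Submodule.Quotient.mk) (CZ_add X a b u v)
      map_smul' := by
        rintro c ⟨u⟩
        exact congrArg (Submodule.Quotient.mk) (show CZ X a b (c • u) = c • CZ X a b u from
          Subtype.ext (show (X.C (b ^ (p - 1) • (c • u.1.1)), X.C (a ^ (p - 1) • (c • u.1.2))) =
            (c • X.C (b ^ (p - 1) • u.1.1), c • X.C (a ^ (p - 1) • u.1.2)) by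
            rw [smul_comm (b ^ (p - 1)) c, smul_comm (a ^ (p - 1)) c, map_smul X.C c,
              map_smul X.C c])) }
  hC c u := by
    obtain ⟨u, rfl⟩ := Submodule.Quotient.mk_surjective _ u
    exact congrArg (Submodule.Quotient.mk) (show CZ X a b (c ^ p • u) = c • CZ X a b u from
      Subtype.ext (show (X.C (b ^ (p - 1) • (c ^ p • u.1.1)), X.C (a ^ (p - 1) • (c ^ p • u.1.2))) =
        (c • X.C (b ^ (p - 1) • u.1.1), c • X.C (a ^ (p - 1) • u.1.2)) by
        rw [smul_comm (b ^ (p - 1)) (c ^ p), smul_comm (a ^ (p - 1)) (c ^ p), X.hC, X.hC]))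

/-- the projection to `H` -/
def pH (X : CMod p R) (a b : R) : ZZ X a b →ₗ[R] (HH X a b).M := (NN X a b).mkQ

theorem pH_surj (X : CMod p R) (a b : R) : Function.Surjective (pH X a b) :=
  Submodule.mkQ_surjective _

theorem pH_zero {X : CMod p R} {a b : R} {z : ZZ X a b} :
    pH X a b z = 0 ↔ ∃ w : X.M, z.1 = (b • w, -(a • w)) :=
  (Submodule.Quotient.mk_eq_zero _).trans Iff.rfl

theorem pH_C (X : CMod p R) (a b : R) (z : ZZ X a b) :
    (HH X a b).C (pH X a b z) = pH X a b (CZ X a b z) := rfl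

theorem proj_zero {Y : CMod p R} {y : R} {m : Y.M} : Y.proj y m = 0 ↔ ∃ x, y • x = m :=
  (Submodule.Quotient.mk_eq_zero _).trans ⟨fun ⟨x, hx⟩ => ⟨x, hx⟩, fun ⟨x, hx⟩ => ⟨x, hx⟩⟩

theorem proj_surj (Y : CMod p R) (y : R) : Function.Surjective (Y.proj y) :=
  Submodule.mkQ_surjective _

theorem FL_HH [IsNoetherianRing R] {a b : R} {ys : List R} {X : CMod p R}
    (h : FL (a :: b :: ys) X) : FL ys (HH X a b) := by
  have hX := h.fin
  have hn : IsNoetherian R X.M := isNoetherian_of_isNoetherianRing_of_finite R X.M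
  refine h.of_le ?_ ?_
  · change Module.Finite R ((ZZ X a b) ⧸ (NN X a b))
    infer_instance
  · rw [FrNE.pro_span, FrNE.pro_span]
    refine sup_le ?_ (sup_le ?_ (sup_le ?_ le_sup_right))
    · refine le_sup_of_le_left fun c hc => ?_
      rw [Module.mem_annihilator] at hc ⊢
      intro m
      obtain ⟨z, rfl⟩ := pH_surj X a b m
      have hz : c • z = 0 := Subtype.ext (Prod.ext (hc z.1.1) (hc z.1.2))
      rw [← map_smul, hz, map_zero]
    · refine le_sup_of_le_left ?_
      rw [Ideal.span_singleton_le_iff_mem, Module.mem_annihilator]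
      intro m
      obtain ⟨z, rfl⟩ := pH_surj X a b m
      have hz := z.2
      rw [mem_ZZ] at hz
      rw [← map_smul, pH_zero]
      refine ⟨-z.1.2, Prod.ext ?_ ?_⟩
      · change a • z.1.1 = b • (-z.1.2)
        rw [smul_neg]
        exact eq_neg_of_add_eq_zero_left hz
      · change a • z.1.2 = -(a • (-z.1.2))
        rw [smul_neg, neg_neg]
    · refine le_sup_of_le_left ?_
      rw [Ideal.span_singleton_le_iff_mem, Module.mem_annihilator]
      intro m
      obtain ⟨z, rfl⟩ := pH_surj X a b m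
      have hz := z.2
      rw [mem_ZZ] at hz
      rw [← map_smul, pH_zero]
      refine ⟨z.1.1, Prod.ext rfl ?_⟩
      change b • z.1.2 = -(a • z.1.1)
      exact eq_neg_of_add_eq_zero_right hz

/-- the two middle leaves -/
theorem LP_HH [IsNoetherianRing R] {a b : R} {ys : List R} {X : CMod p R}
    (h : FL (a :: b :: ys) X) : CMod.LP ys (HH X a b) =
      CMod.LP ys ((X.kr a).qt b) * CMod.LP ys ((X.qt a).kr b) := by
  -- the inclusion
  let i₀ : (X.kr a).M →ₗ[R] ZZ X a b :=
    { toFun := fun u => ⟨((u.1 : X.M), 0), by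
        rw [mem_ZZ]
        change a • u.1 + b • (0 : X.M) = 0
        rw [smul_zero, add_zero]
        exact u.2⟩
      map_add' := fun u v => Subtype.ext (Prod.ext rfl (add_zero (0 : X.M)).symm)
      map_smul' := fun c v => Subtype.ext (Prod.ext rfl (smul_zero (A := X.M) c).symm) }
  have hi₀ : ∀ u, (i₀ u).1 = ((u.1 : X.M), 0) := fun u => rfl
  obtain ⟨i, hi⟩ := fac ((X.kr a).proj b) (pH X a b ∘ₗ i₀) (proj_surj _ _) (by
    intro u hu
    obtain ⟨w, rfl⟩ := proj_zero.1 hu
    rw [LinearMap.comp_apply, pH_zero]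
    refine ⟨w.1, ?_⟩
    rw [hi₀]
    have hw : a • w.1 = 0 := w.2
    rw [hw, neg_zero]
    rfl)
  -- the projection
  let q₀ : ZZ X a b →ₗ[R] ((X.qt a).kr b).M :=
    { toFun := fun z => ⟨X.proj a z.1.2, by
        rw [LinearMap.mem_ker, LinearMap.lsmul_apply, ← map_smul, proj_zero]
        refine ⟨-z.1.1, ?_⟩
        have hz := z.2
        rw [mem_ZZ] at hz
        rw [smul_neg]
        exact (eq_neg_of_add_eq_zero_right hz).symm⟩
      map_add' := fun u v => Subtype.ext (map_add (X.proj a) u.1.2 v.1.2)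
      map_smul' := fun c v => Subtype.ext (map_smul (X.proj a) c v.1.2) }
  have hq₀ : ∀ z, (q₀ z).1 = X.proj a z.1.2 := fun z => rfl
  obtain ⟨q, hq⟩ := fac (pH X a b) q₀ (pH_surj _ _ _) (by
    intro z hz
    obtain ⟨w, hw⟩ := pH_zero.1 hz
    apply Subtype.ext
    rw [hq₀, hw]
    exact proj_zero.2 ⟨-w, smul_neg a w⟩)
  refine LP_ex ys (FL_HH h) (i := i) (q := q) ⟨?_, ?_, ?_, ?_, ?_⟩
  · -- injective
    rw [injective_iff_map_eq_zero]
    intro u hu
    obtain ⟨u, rfl⟩ := proj_surj _ _ u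
    rw [hi, LinearMap.comp_apply, pH_zero] at hu
    obtain ⟨w, hw⟩ := hu
    rw [hi₀] at hw
    have h1 : u.1 = b • w := congrArg Prod.fst hw
    have h2 : (0 : X.M) = -(a • w) := congrArg Prod.snd hw
    have h3 : a • w = 0 := neg_eq_zero.1 h2.symm
    rw [proj_zero]
    exact ⟨⟨w, h3⟩, Subtype.ext h1.symm⟩
  · -- surjective
    intro m
    obtain ⟨v, hv⟩ := proj_surj X a m.1
    have h1 : b • X.proj a v = 0 := by rw [hv]; exact m.2
    rw [← map_smul, proj_zero] at h1
    obtain ⟨u, hu⟩ := h1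
    have hz : (-u, v) ∈ ZZ X a b := by
      rw [mem_ZZ]
      change a • (-u) + b • v = 0
      rw [← hu, smul_neg, neg_add_cancel]
    refine ⟨pH X a b ⟨(-u, v), hz⟩, ?_⟩
    rw [hq]
    exact Subtype.ext hv
  · -- exact
    intro m
    obtain ⟨z, rfl⟩ := pH_surj X a b m
    rw [hq]
    constructor
    · intro hz
      have h1 : X.proj a z.1.2 = 0 := congrArg Subtype.val hz
      rw [proj_zero] at h1
      obtain ⟨v, hv⟩ := h1
      have h2 := z.2
      rw [mem_ZZ, ← hv, smul_comm b a, ← smul_add] at h2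
      obtain ⟨u, hu⟩ : ∃ u : (X.kr a).M, u.1 = z.1.1 + b • v := ⟨⟨_, h2⟩, rfl⟩
      refine ⟨(X.kr a).proj b u, (hi _).trans ?_⟩
      rw [LinearMap.comp_apply, ← sub_eq_zero, ← map_sub, pH_zero]
      refine ⟨v, Prod.ext ?_ ?_⟩
      · change u.1 - z.1.1 = b • v
        rw [hu]
        abel
      · change 0 - z.1.2 = -(a • v)
        rw [hv, zero_sub]
    · rintro ⟨x, hx⟩
      obtain ⟨u, rfl⟩ := proj_surj _ _ x
      rw [hi] at hx
      have h1 : q (pH X a b z) = 0 := by
        rw [← hx, LinearMap.comp_apply, hq]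
        exact Subtype.ext (map_zero (X.proj a))
      rw [hq] at h1
      exact h1
  · intro m
    obtain ⟨u, rfl⟩ := proj_surj _ _ m
    rw [hi, LinearMap.comp_apply, pH_C, CMod.proj_C, hi, LinearMap.comp_apply]
    congr 1
    apply Subtype.ext
    refine Prod.ext rfl ?_
    change X.C (a ^ (p - 1) • (0 : X.M)) = 0
    rw [smul_zero, map_zero]
  · intro m
    obtain ⟨z, rfl⟩ := pH_surj X a b m
    rw [pH_C, hq, hq]
    rfl

/-- `H` is symmetric -/
theorem LP_HH_symm [IsNoetherianRing R] {a b : R} {ys : List R} {X : CMod p R}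
    (h : FL (a :: b :: ys) X) : CMod.LP ys (HH X a b) = CMod.LP ys (HH X b a) := by
  let σ : ZZ X a b →ₗ[R] ZZ X b a :=
    { toFun := fun z => ⟨(z.1.2, z.1.1), by
        have hz := z.2
        rw [mem_ZZ] at hz ⊢
        rw [add_comm]
        exact hz⟩
      map_add' := fun u v => rfl
      map_smul' := fun c v => rfl }
  refine LP_two (CZ X a b) (FL_HH h) (pH X a b) (pH X b a ∘ₗ σ) (pH_surj _ _ _) ?_ ?_ ?_ ?_
  · intro m
    obtain ⟨z, rfl⟩ := pH_surj X b a m
    have hz : (z.1.2, z.1.1) ∈ ZZ X a b := by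
      have hz := z.2
      rw [mem_ZZ] at hz ⊢
      rw [add_comm]
      exact hz
    exact ⟨⟨(z.1.2, z.1.1), hz⟩, rfl⟩
  · intro z
    rw [LinearMap.comp_apply, pH_zero, pH_zero]
    constructor
    · rintro ⟨w, hw⟩
      refine ⟨-w, ?_⟩
      change (z.1.2, z.1.1) = _
      rw [hw, smul_neg, smul_neg, neg_neg]
    · rintro ⟨w, hw⟩
      refine ⟨-w, ?_⟩
      have h1 : z.1.2 = a • w := congrArg Prod.fst hw
      have h2 : z.1.1 = -(b • w) := congrArg Prod.snd hw
      rw [smul_neg, smul_neg, neg_neg, ← h1, ← h2]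
  · intro m
    rfl
  · intro m
    rfl

/-! ### the order of the parameters -/

theorem LP_swap [IsNoetherianRing R] {a b : R} {ys : List R} {X : CMod p R}
    (h : FL (a :: b :: ys) X) :
    CMod.LP (a :: b :: ys) X = CMod.LP (b :: a :: ys) X := by
  have h' : FL (b :: a :: ys) X := h.of_le h.fin (by
    rw [FrNE.pro_span, FrNE.pro_span, FrNE.pro_span, FrNE.pro_span, sup_left_comm
      (Ideal.span {a})])
  rw [LP_cons, LP_cons, LP_cons, LP_cons, LP_cons, LP_cons]
  have h1 : CMod.LP ys ((X.kr a).kr b) = CMod.LP ys ((X.kr b).kr a) := by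
    let f : ((X.kr a).kr b).M →ₗ[R] ((X.kr b).kr a).M :=
      { toFun := fun u => ⟨⟨u.1.1, congrArg Subtype.val u.2⟩, Subtype.ext u.1.2⟩
        map_add' := fun u v => rfl
        map_smul' := fun c v => rfl }
    refine LP_iso h.kr.kr f (fun m => rfl) (fun m hm => ?_) (fun m => ?_)
    · exact Subtype.ext (Subtype.ext (congrArg (fun x => (x.1.1 : X.M)) hm))
    · exact ⟨⟨⟨m.1.1, congrArg Subtype.val m.2⟩, Subtype.ext m.1.2⟩, rfl⟩
  have h2 : CMod.LP ys ((X.qt a).qt b) = CMod.LP ys ((X.qt b).qt a) := by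
    refine LP_two (fun m => X.C (a ^ (p - 1) • b ^ (p - 1) • m)) h.qt.qt
      ((X.qt a).proj b ∘ₗ X.proj a) ((X.qt b).proj a ∘ₗ X.proj b)
      ((proj_surj _ _).comp (proj_surj _ _)) ((proj_surj _ _).comp (proj_surj _ _)) ?_ ?_ ?_
    · have key : ∀ (a b : R) (m : X.M), ((X.qt a).proj b ∘ₗ X.proj a) m = 0 ↔
          ∃ u v : X.M, m = a • u + b • v := by
        intro a b m
        rw [LinearMap.comp_apply, proj_zero]
        constructor
        · rintro ⟨x, hx⟩
          obtain ⟨v, rfl⟩ := proj_surj _ _ x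
          rw [← map_smul, eq_comm, ← sub_eq_zero, ← map_sub, proj_zero] at hx
          obtain ⟨u, hu⟩ := hx
          exact ⟨u, v, by rw [hu, sub_add_cancel]⟩
        · rintro ⟨u, v, rfl⟩
          refine ⟨X.proj a v, ?_⟩
          rw [← map_smul, map_add, right_eq_add, proj_zero]
          exact ⟨u, rfl⟩
      intro m
      rw [key, key]
      constructor
      · rintro ⟨u, v, rfl⟩
        exact ⟨v, u, add_comm _ _⟩
      · rintro ⟨u, v, rfl⟩
        exact ⟨v, u, add_comm _ _⟩
    · intro m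
      rfl
    · intro m
      rw [smul_comm (a ^ (p - 1))]
      rfl
  have h3 := LP_HH h
  have h4 := LP_HH h'
  have h5 := LP_HH_symm h
  rw [h3, h4] at h5
  rw [h1, h2, div_div_div_eq, div_div_div_eq, h5, mul_comm (CMod.LP ys ((X.kr b).qt a))]

end Pool.Agent.SuInd
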